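import Pool.Agent.W890.SF.R3
import Pool.Agent.Q113.XU.Stm

/-!
# Exact values from `XALL`
-/

set_option autoImplicit false

namespace Pool.Agent.Q113.XF

open Finset Pool.Agent.W890.SF Pool.Agent.W890.SF.R3 Pool.Agent.Q113.XU

theorem val (hl : S_LOW) (k : ℕ) (hk : 1 ≤ k) (h : XALL k) : ∃ n0 : ℕ, ∀ n : ℕ, n0 ≤ n → ∀ s : ℕ,
    k * (s + 1) ≤ n →
    mm n k s = max (n.choose k - (n - s).choose k) ((k * (s + 1) - 1).choose k) := by
  obtain ⟨n0, h0⟩ := h
  refine ⟨n0, fun n hn s hs => ?_⟩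
  have hsn : s ≤ n := by
    have : s + 1 ≤ k * (s + 1) := Nat.le_mul_of_pos_left _ (by omega)
    omega
  obtain ⟨l1, l2, l3⟩ := hl n k s hk hsn
  exact le_antisymm (l3 _ fun F hF hc => h0 n hn s hs F hF hc) (max_le l1 (l2 (by omega)))

/-- total weight in a complete `k`-graph on `T` -/
theorem total_clique {n : ℕ} (k : ℕ) (T : Finset (Fin n)) (H : Finset (Finset (Fin n)))
    (hH : ∀ e ∈ H, e.card = k ∧ e ⊆ T) (w : Finset (Fin n) → ℝ)
    (hl : ∀ v : Fin n, ∑ e ∈ H.filter (fun e => v ∈ e), w e ≤ 1) : (k : ℝ) * ∑ e ∈ H, w e ≤ T.card := by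
  classical
  calc (k : ℝ) * ∑ e ∈ H, w e = ∑ e ∈ H, ∑ v ∈ T, (if v ∈ e then w e else 0) := by
        rw [mul_sum]
        refine sum_congr rfl fun e he => ?_
        rw [← sum_filter, sum_const, nsmul_eq_mul]
        congr 1
        have : T.filter (fun v => v ∈ e) = e := by
          ext v
          rw [mem_filter]
          exact ⟨fun h => h.2, fun h => ⟨(hH e he).2 h, h⟩⟩
        rw [this, (hH e he).1]
    _ = ∑ v ∈ T, ∑ e ∈ H, (if v ∈ e then w e else 0) := sum_comm
    _ ≤ ∑ v ∈ T, (1 : ℝ) := by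
        refine sum_le_sum fun v _ => ?_
        rw [← sum_filter]
        exact hl v
    _ = T.card := by simp

theorem frac (k : ℕ) (hk : 1 ≤ k) (h : XALL k) : ∃ n0 : ℕ, ∀ n : ℕ, n0 ≤ n → ∀ s : ℕ, 1 ≤ s →
    k * s ≤ n →
    f0 k n s = 1 + max (n.choose k - (n - s + 1).choose k) ((k * s - 1).choose k) := by
  obtain ⟨n0, h0⟩ := h
  refine ⟨n0, fun n hn s hs hsn => ?_⟩
  obtain ⟨t, rfl⟩ : ∃ t, s = t + 1 := ⟨s - 1, by omega⟩
  have htn : t + 1 ≤ n := le_trans (Nat.le_mul_of_pos_left _ (by omega)) hsn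
  have e1 : n - (t + 1) + 1 = n - t := by omega
  rw [e1]
  set D : ℕ := max (n.choose k - (n - t).choose k) ((k * (t + 1) - 1).choose k) with hD
  have hmem : 1 + D ∈ {m : ℕ | ∀ H : Finset (Finset (Fin n)), (∀ e ∈ H, e.card = k) → m ≤ H.card →
      HasFracMatching H (t + 1 : ℕ)} := by
    intro H hH hc
    obtain ⟨M, hM, hMd, hMc⟩ := h0 n hn t hsn H hH (by omega)
    rw [← hMc]
    exact frac_of_matching H M hM hMd
  apply le_antisymm
  · exact Nat.sInf_le hmem
  · by_contra hcon
    have hle : f0 k n (t + 1) ≤ D := by omega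
    have hm := Nat.sInf_mem ⟨_, hmem⟩
    rcases le_max_iff.1 (hle.trans hD.le) with h1 | h1
    · obtain ⟨S, -, hSc⟩ := Finset.exists_subset_card_eq (s := (univ : Finset (Fin n))) (n := t)
        (by rw [card_univ, Fintype.card_fin]; omega)
      have hc := meet_card k S
      rw [hSc] at hc
      have hu : ∀ e ∈ meet k S, e.card = k := fun e he =>
        (mem_powersetCard.1 (mem_filter.1 he).1).2
      obtain ⟨w, hw1, hw2, hw3⟩ := hm (meet k S) hu (by rw [hc]; exact h1)
      have := total_le (meet k S) S (fun e he => (mem_filter.1 he).2) w (fun e he => (hw1 e he).1) hw2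
      rw [hw3, hSc] at this
      push_cast at this
      linarith
    · obtain ⟨T, -, hTc⟩ := Finset.exists_subset_card_eq (s := (univ : Finset (Fin n)))
        (n := k * (t + 1) - 1) (by rw [card_univ, Fintype.card_fin]; omega)
      have hc : (T.powersetCard k).card = (k * (t + 1) - 1).choose k := by
        rw [card_powersetCard, hTc]
      have hu : ∀ e ∈ T.powersetCard k, e.card = k := fun e he => (mem_powersetCard.1 he).2
      obtain ⟨w, hw1, hw2, hw3⟩ := hm (T.powersetCard k) hu (by rw [hc]; exact h1)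
      have h2 := total_clique k T (T.powersetCard k)
        (fun e he => ⟨(mem_powersetCard.1 he).2, (mem_powersetCard.1 he).1⟩) w hw2
      rw [hw3, hTc] at h2
      have h3 : 1 ≤ k * (t + 1) := Nat.mul_pos (by omega) (by omega)
      rw [Nat.cast_sub h3] at h2
      push_cast at h2
      linarith

end Pool.Agent.Q113.XF
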